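import Pool.Agent.Helper69.QG.St4
import Pool.Agent.Helper68.QC.Cal

/-!
# Project QD part C, module WLP: weak derivatives of locally Lipschitz functions
-/

open Complex Set Metric MeasureTheory Filter Topology
open scoped ComplexConjugate NNReal ContDiff

namespace Pool.Agent.Helper97.QG

open Pool.Agent.Helper69.QG
open Pool.Agent.Helper68.QC

/-- Integration by parts, real Lipschitz function, real test function. -/
private lemma ibpA {g ψ : ℂ → ℝ} {C : ℝ≥0} (hg : LipschitzWith C g) (hψ : ContDiff ℝ ∞ ψ)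
    (hc : HasCompactSupport ψ) (v : ℂ) :
    ∫ z, fderiv ℝ g z v * ψ z = - ∫ z, g z * fderiv ℝ ψ z v := by
  obtain ⟨D, hD⟩ : ∃ D, LipschitzWith D ψ :=
    ContDiff.lipschitzWith_of_hasCompactSupport hc hψ (by simp)
  have h := hg.integral_lineDeriv_mul_eq (μ := volume) hD hc v
  have e1 : ∫ z, fderiv ℝ g z v * ψ z = ∫ z, lineDeriv ℝ g z v * ψ z := by
    refine integral_congr_ae ?_
    filter_upwards [hg.ae_differentiableAt (μ := volume)] with z hz
    rw [hz.lineDeriv_eq_fderiv]
  have e2 : ∫ z, lineDeriv ℝ ψ z (-v) * g z = - ∫ z, g z * fderiv ℝ ψ z v := by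
    rw [← integral_neg]
    refine integral_congr_ae (ae_of_all _ fun z => ?_)
    have hz : DifferentiableAt ℝ ψ z := (hψ.differentiable (by simp)) z
    simp only [hz.lineDeriv_eq_fderiv, map_neg]
    ring
  rw [e1, h, e2]

private lemma int1 {g : ℂ → ℝ} {C : ℝ≥0} (hg : LipschitzWith C g) {φ : ℂ → ℂ}
    (hφ : Integrable φ) (v : ℂ) :
    Integrable (fun z => ((fderiv ℝ g z v : ℝ) : ℂ) * φ z) := by
  refine hφ.bdd_mul (c := C * ‖v‖) ?_ ?_
  · exact (Complex.measurable_ofReal.comp
      (measurable_fderiv_apply_const ℝ g v)).aestronglyMeasurable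
  · refine ae_of_all _ fun z => ?_
    rw [Complex.norm_real]
    exact ((fderiv ℝ g z).le_opNorm v).trans
      (mul_le_mul_of_nonneg_right (norm_fderiv_le_of_lipschitz ℝ hg) (norm_nonneg v))

private lemma int2 {g : ℂ → ℝ} {C : ℝ≥0} (hg : LipschitzWith C g) {φ : ℂ → ℂ}
    (hφ : ContDiff ℝ ∞ φ) (hc : HasCompactSupport φ) (v : ℂ) :
    Integrable (fun z => (g z : ℂ) * fderiv ℝ φ z v) := by
  refine Continuous.integrable_of_hasCompactSupport ?_ (hc.fderiv_apply ℝ v).mul_left
  exact (Complex.continuous_ofReal.comp hg.continuous).mul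
    ((hφ.continuous_fderiv (by simp)).clm_apply continuous_const)

/-- Integration by parts, real Lipschitz function, complex test function. -/
private lemma ibpB {g : ℂ → ℝ} {C : ℝ≥0} (hg : LipschitzWith C g) {φ : ℂ → ℂ}
    (hφ : ContDiff ℝ ∞ φ) (hc : HasCompactSupport φ) (v : ℂ) :
    ∫ z, ((fderiv ℝ g z v : ℝ) : ℂ) * φ z = - ∫ z, (g z : ℂ) * fderiv ℝ φ z v := by
  have hi : Integrable φ := hφ.continuous.integrable_of_hasCompactSupport hc
  have i1 := int1 hg hi v
  have i2 := int2 hg hφ hc v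
  have hd : ∀ z, DifferentiableAt ℝ φ z := fun z => (hφ.differentiable (by simp)) z
  have key : ∀ (A : ℂ →L[ℝ] ℝ), (∀ (r : ℝ) (w : ℂ), A ((r : ℂ) * w) = r * A w) →
      A (∫ z, ((fderiv ℝ g z v : ℝ) : ℂ) * φ z) =
        A (- ∫ z, (g z : ℂ) * fderiv ℝ φ z v) := by
    intro A hA
    rw [map_neg, ← A.integral_comp_comm i1, ← A.integral_comp_comm i2]
    have h := ibpA hg (ψ := fun z => A (φ z)) (A.contDiff.comp hφ)
      (hc.comp_left (g := A) (map_zero A)) v
    have e1 : (fun z => A (((fderiv ℝ g z v : ℝ) : ℂ) * φ z)) =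
        fun z => fderiv ℝ g z v * A (φ z) := by
      ext z; rw [hA]
    have e2 : (fun z => A ((g z : ℂ) * fderiv ℝ φ z v)) =
        fun z => g z * fderiv ℝ (fun z => A (φ z)) z v := by
      ext z
      rw [hA]
      congr 1
      have := (A.hasFDerivAt (x := φ z)).comp z (hd z).hasFDerivAt
      have e := this.fderiv
      change _ = fderiv ℝ (A ∘ φ) z v
      rw [e]
      rfl
    rw [e1, e2, h]
  refine Complex.ext ?_ ?_
  · exact key Complex.reCLM (fun r w => by simp)
  · exact key Complex.imCLM (fun r w => by simp)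

/-- Integration by parts for a locally Lipschitz function. -/
private lemma ibpL {U : Set ℂ} {f : ℂ → ℂ} (hU : IsOpen U)
    (hf : ∀ K ⊆ U, IsCompact K → ∃ L : ℝ, ∀ x ∈ K, ∀ y ∈ K, ‖f x - f y‖ ≤ L * ‖x - y‖)
    {φ : ℂ → ℂ} (h : Tst U φ) (v : ℂ) :
    Integrable (fun z => f z * fderiv ℝ φ z v) ∧ Integrable (fun z => fderiv ℝ f z v * φ z) ∧
    ∫ z, f z * fderiv ℝ φ z v = - ∫ z, fderiv ℝ f z v * φ z := by
  have hK : IsCompact (tsupport φ) := h.cpt
  obtain ⟨δ, hδ, hδU⟩ := hK.exists_cthickening_subset_open hU h.sub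
  obtain ⟨L, hL⟩ := hf _ hδU hK.cthickening
  have hlip : LipschitzOnWith (Real.toNNReal L) f (cthickening δ (tsupport φ)) := by
    refine LipschitzOnWith.of_dist_le_mul fun x hx y hy => ?_
    rw [dist_eq_norm, dist_eq_norm]
    refine (hL x hx y hy).trans (mul_le_mul_of_nonneg_right ?_ (norm_nonneg _))
    exact Real.le_coe_toNNReal L
  have hre : LipschitzOnWith (Real.toNNReal L) (fun z => (f z).re)
      (cthickening δ (tsupport φ)) := by
    refine LipschitzOnWith.of_dist_le_mul fun x hx y hy => ?_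
    refine le_trans ?_ (hlip.dist_le_mul x hx y hy)
    rw [Real.dist_eq, dist_eq_norm, ← Complex.sub_re]
    exact Complex.abs_re_le_norm _
  have him : LipschitzOnWith (Real.toNNReal L) (fun z => (f z).im)
      (cthickening δ (tsupport φ)) := by
    refine LipschitzOnWith.of_dist_le_mul fun x hx y hy => ?_
    refine le_trans ?_ (hlip.dist_le_mul x hx y hy)
    rw [Real.dist_eq, dist_eq_norm, ← Complex.sub_im]
    exact Complex.abs_im_le_norm _
  obtain ⟨g1, hg1, e1⟩ := hre.extend_real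
  obtain ⟨g2, hg2, e2⟩ := him.extend_real
  have hi : Integrable φ := h.integrable
  -- `f = g1 + i g2` near the support
  have hfg : ∀ z ∈ thickening δ (tsupport φ), f z = (g1 z : ℂ) + I * (g2 z : ℂ) := by
    intro z hz
    have hz' := thickening_subset_cthickening δ _ hz
    have a1 : (f z).re = g1 z := e1 hz'
    have a2 : (f z).im = g2 z := e2 hz'
    rw [← a1, ← a2, mul_comm]
    exact (Complex.re_add_im _).symm
  have hsub : tsupport φ ⊆ thickening δ (tsupport φ) := self_subset_thickening hδ _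
  have hφ0 : ∀ z, z ∉ tsupport φ → φ z = 0 := fun z hz => image_eq_zero_of_notMem_tsupport hz
  have hφ1 : ∀ z, z ∉ tsupport φ → fderiv ℝ φ z v = 0 := by
    intro z hz
    have := fderiv_of_notMem_tsupport (𝕜 := ℝ) hz
    rw [this]; rfl
  have E1 : (fun z => f z * fderiv ℝ φ z v) =
      fun z => (g1 z : ℂ) * fderiv ℝ φ z v + I * ((g2 z : ℂ) * fderiv ℝ φ z v) := by
    ext z
    by_cases hz : z ∈ tsupport φ
    · rw [hfg z (hsub hz)]; ring
    · rw [hφ1 z hz]; ring
  have E2 : (fun z => fderiv ℝ f z v * φ z) =ᵐ[volume]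
      fun z => ((fderiv ℝ g1 z v : ℝ) : ℂ) * φ z + I * (((fderiv ℝ g2 z v : ℝ) : ℂ) * φ z) := by
    filter_upwards [hg1.ae_differentiableAt (μ := volume),
      hg2.ae_differentiableAt (μ := volume)] with z h1 h2
    by_cases hz : z ∈ tsupport φ
    · have hev : f =ᶠ[𝓝 z] fun z => (g1 z : ℂ) + I * (g2 z : ℂ) := by
        filter_upwards [isOpen_thickening.mem_nhds (hsub hz)] with w hw
        exact hfg w hw
      have hd1 : HasFDerivAt (fun z => (g1 z : ℂ)) (Complex.ofRealCLM ∘L fderiv ℝ g1 z) z :=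
        (Complex.ofRealCLM.hasFDerivAt (x := g1 z)).comp z h1.hasFDerivAt
      have hd2 : HasFDerivAt (fun z => (g2 z : ℂ)) (Complex.ofRealCLM ∘L fderiv ℝ g2 z) z :=
        (Complex.ofRealCLM.hasFDerivAt (x := g2 z)).comp z h2.hasFDerivAt
      have hd := (hd1.add (hd2.const_mul I)).congr_of_eventuallyEq hev
      rw [hd.fderiv]
      simp only [ContinuousLinearMap.add_apply, ContinuousLinearMap.smul_apply,
        ContinuousLinearMap.comp_apply, Complex.ofRealCLM_apply, smul_eq_mul]
      ring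
    · rw [hφ0 z hz]; ring
  have j1 := int1 hg1 hi v
  have j2 := int1 hg2 hi v
  have k1 := int2 hg1 h.smooth h.cpt v
  have k2 := int2 hg2 h.smooth h.cpt v
  refine ⟨?_, ?_, ?_⟩
  · rw [E1]; exact k1.add (k2.const_mul I)
  · exact (j1.add (j2.const_mul I)).congr E2.symm
  · rw [E1, integral_congr_ae E2, integral_add k1 (k2.const_mul I),
      integral_add j1 (j2.const_mul I), integral_const_mul, integral_const_mul,
      ibpB hg1 h.smooth h.cpt v, ibpB hg2 h.smooth h.cpt v]
    ring

private lemma l2d {U : Set ℂ} {f : ℂ → ℂ} (hU : IsOpen U)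
    (hf : ∀ K ⊆ U, IsCompact K → ∃ L : ℝ, ∀ x ∈ K, ∀ y ∈ K, ‖f x - f y‖ ≤ L * ‖x - y‖)
    {a : ℂ → ℂ} (ha : Measurable a) (hb : ∀ z, ‖a z‖ ≤ ‖fderiv ℝ f z‖) : L2 U a := by
  intro K hKU hK
  have : IsFiniteMeasure ((volume : Measure ℂ).restrict K) :=
    ⟨by rw [Measure.restrict_apply_univ]; exact hK.measure_lt_top⟩
  obtain ⟨δ, hδ, hδU⟩ := hK.exists_cthickening_subset_open hU hKU
  obtain ⟨L, hL⟩ := hf _ hδU hK.cthickening
  have hlip : LipschitzOnWith (Real.toNNReal L) f (cthickening δ K) := by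
    refine LipschitzOnWith.of_dist_le_mul fun x hx y hy => ?_
    rw [dist_eq_norm, dist_eq_norm]
    refine (hL x hx y hy).trans (mul_le_mul_of_nonneg_right ?_ (norm_nonneg _))
    exact Real.le_coe_toNNReal L
  refine MemLp.of_bound ha.aestronglyMeasurable (Real.toNNReal L : ℝ) ?_
  refine (ae_restrict_iff' hK.measurableSet).2 (ae_of_all _ fun z hz => ?_)
  refine (hb z).trans ?_
  have hn : cthickening δ K ∈ 𝓝 z := by
    refine Filter.mem_of_superset (isOpen_thickening.mem_nhds (self_subset_thickening hδ _ hz))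
      (thickening_subset_cthickening δ _)
  exact norm_fderiv_le_of_lipschitzOn ℝ hn hlip

theorem cWLP : St_WLP := by
  intro U f hU hf
  have m1 : Measurable (fun z => fderiv ℝ f z 1) := measurable_fderiv_apply_const ℝ f 1
  have m2 : Measurable (fun z => fderiv ℝ f z I) := measurable_fderiv_apply_const ℝ f I
  refine ⟨?_, ?_, ?_, ?_, ?_⟩
  · intro z hz
    obtain ⟨r, hr, hrU⟩ := Metric.isOpen_iff.1 hU z hz
    have hrU' : closedBall z (r / 2) ⊆ U :=
      (closedBall_subset_ball (by linarith)).trans hrU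
    obtain ⟨L, hL⟩ := hf _ hrU' (isCompact_closedBall z (r / 2))
    have hlip : LipschitzOnWith (Real.toNNReal L) f (closedBall z (r / 2)) := by
      refine LipschitzOnWith.of_dist_le_mul fun x hx y hy => ?_
      rw [dist_eq_norm, dist_eq_norm]
      refine (hL x hx y hy).trans (mul_le_mul_of_nonneg_right ?_ (norm_nonneg _))
      exact Real.le_coe_toNNReal L
    exact (hlip.continuousOn.continuousAt
      (closedBall_mem_nhds z (by linarith))).continuousWithinAt
  · exact l2d hU hf ((m1.sub (measurable_const.mul m2)).div_const 2) (norm_dz_le f)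
  · exact l2d hU hf ((m1.add (measurable_const.mul m2)).div_const 2) (norm_dzb_le f)
  · intro φ h
    obtain ⟨a1, b1, c1⟩ := ibpL hU hf h 1
    obtain ⟨a2, b2, c2⟩ := ibpL hU hf h I
    have e1 : (fun z => f z * dz φ z) =
        fun z => (f z * fderiv ℝ φ z 1 - I * (f z * fderiv ℝ φ z I)) / 2 := by
      ext z; unfold dz; ring
    have e2 : (fun z => dz f z * φ z) =
        fun z => (fderiv ℝ f z 1 * φ z - I * (fderiv ℝ f z I * φ z)) / 2 := by
      ext z; unfold dz; ring
    rw [e1, e2, integral_div, integral_div, integral_sub a1 (a2.const_mul I),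
      integral_sub b1 (b2.const_mul I), integral_const_mul, integral_const_mul, c1, c2]
    ring
  · intro φ h
    obtain ⟨a1, b1, c1⟩ := ibpL hU hf h 1
    obtain ⟨a2, b2, c2⟩ := ibpL hU hf h I
    have e1 : (fun z => f z * dzb φ z) =
        fun z => (f z * fderiv ℝ φ z 1 + I * (f z * fderiv ℝ φ z I)) / 2 := by
      ext z; unfold dzb; ring
    have e2 : (fun z => dzb f z * φ z) =
        fun z => (fderiv ℝ f z 1 * φ z + I * (fderiv ℝ f z I * φ z)) / 2 := by
      ext z; unfold dzb; ring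
    rw [e1, e2, integral_div, integral_div, integral_add a1 (a2.const_mul I),
      integral_add b1 (b2.const_mul I), integral_const_mul, integral_const_mul, c1, c2]
    ring

end Pool.Agent.Helper97.QG
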